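import Pool.Agent.H190R3.WeiCard

/-!
The set-cofinality of the Weihrauch degrees is `2 ^ 𝔠` (MP_62990a_lc, Q1).

`Problem` is the type of multi-valued functions on Baire space (`sol x` is the set of solutions of
the instance `x`; the domain consists of the instances having a solution; the empty problem is
allowed), preordered by Weihrauch reducibility; `Degree` is the partial order of Weihrauch degrees.

Proof: if a total single-valued function `f` is Weihrauch reducible to the problem `g` by the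
functionals `Φ` and `Ψ`, then `f p = Ψ (p, q)` for each `q ∈ g (Φ p)`, so `f` is determined by `g`,
`Φ` and `Ψ`. Hence every problem bounds only countably many of the `2 ^ 𝔠` total single-valued
functions, and each cofinal set of degrees has at least `2 ^ 𝔠` elements.
-/

set_option autoImplicit false

namespace Pool.Agent.Results.MP_62990a_lc.SetCofinality

open Set Cardinal Pool.Agent.H190R3.Wei

/-- There are only countably many computable word functions. -/
lemma countable_computable : Countable {φ : List ℕ → List ℕ // Computable φ} := by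
  classical
  have h : ∀ φ : {φ : List ℕ → List ℕ // Computable φ}, ∃ c : Nat.Partrec.Code,
      ∀ a : List ℕ, c.eval (Encodable.encode a) = Part.some (Encodable.encode (φ.1 a)) := by
    rintro ⟨φ, hφ⟩
    obtain ⟨c, hc⟩ := Nat.Partrec.Code.exists_code.1 hφ
    refine ⟨c, fun a => ?_⟩
    rw [hc]
    simp
  choose c hc using h
  refine Function.Injective.countable (f := c) ?_
  intro φ ψ h
  apply Subtype.ext
  funext a
  have h1 := hc φ a
  rw [h, hc ψ a] at h1
  exact (Encodable.encode_injective (Part.some_injective h1)).symm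

/-- The problem given by a total single-valued function. -/
def tot (f : (ℕ → ℕ) → (ℕ → ℕ)) : Problem := ⟨fun x => {f x}⟩

lemma tot_unique {φ ψ : List ℕ → List ℕ} {f f' : (ℕ → ℕ) → (ℕ → ℕ)} {g : Problem}
    (h : Red φ ψ (tot f) g) (h' : Red φ ψ (tot f') g) : f = f' := by
  funext x
  obtain ⟨y, hy, ⟨z, hz⟩, r⟩ := h x ⟨f x, rfl⟩
  obtain ⟨y', hy', -, r'⟩ := h' x ⟨f' x, rfl⟩
  obtain rfl := Maps.unique hy hy'
  obtain ⟨w, hw, hm⟩ := r z hz
  obtain ⟨w', hw', hm'⟩ := r' z hz
  rw [mem_singleton_iff.1 hw] at hm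
  rw [mem_singleton_iff.1 hw'] at hm'
  exact Maps.unique hm hm'

lemma mk_functions : #((ℕ → ℕ) → (ℕ → ℕ)) = 2 ^ 𝔠 := by
  rw [← Cardinal.power_def, mk_baire, Cardinal.power_self_eq Cardinal.aleph0_le_continuum]

lemma mk_degree_le : #Degree ≤ 2 ^ 𝔠 := by
  have h1 : #Degree ≤ #Problem := Cardinal.mk_le_of_surjective
    (f := toAntisymmetrization (· ≤ ·)) (by
      intro d; exact ⟨ofAntisymmetrization (· ≤ ·) d, by simp⟩)
  have h2 : #Problem ≤ #((ℕ → ℕ) → Set (ℕ → ℕ)) :=
    Cardinal.mk_le_of_injective (f := Problem.sol) (fun f g h => Problem.ext h)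
  have h3 : #((ℕ → ℕ) → Set (ℕ → ℕ)) = 2 ^ 𝔠 := by
    rw [← Cardinal.power_def, Cardinal.mk_set, mk_baire, ← Cardinal.power_mul,
      Cardinal.mul_eq_self Cardinal.aleph0_le_continuum]
  exact (h1.trans h2).trans h3.le

lemma le_mk_of_cofinal (S : Set Degree) (hS : ∀ p : Degree, ∃ q ∈ S, p ≤ q) : 2 ^ 𝔠 ≤ #S := by
  classical
  have h : ∀ f : (ℕ → ℕ) → (ℕ → ℕ), ∃ k : S × {φ : List ℕ → List ℕ // Computable φ} ×
      {φ : List ℕ → List ℕ // Computable φ},
      Red k.2.1.1 k.2.2.1 (tot f) (ofAntisymmetrization (· ≤ ·) (k.1 : Degree)) := by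
    intro f
    obtain ⟨q, hq, hle⟩ := hS (toAntisymmetrization (· ≤ ·) (tot f))
    have h1 : tot f ≤ ofAntisymmetrization (· ≤ ·) q := by
      rw [← toAntisymmetrization_le_toAntisymmetrization_iff]
      simpa using hle
    obtain ⟨φ, ψ, hφ, hψ, r⟩ := h1
    exact ⟨⟨⟨q, hq⟩, ⟨φ, hφ.comp⟩, ⟨ψ, hψ.comp⟩⟩, r⟩
  choose k hk using h
  have hinj : Function.Injective k := by
    intro f f' hff
    have h1 := hk f
    rw [hff] at h1
    exact tot_unique h1 (hk f')
  have hc : #{φ : List ℕ → List ℕ // Computable φ} ≤ ℵ₀ :=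
    Cardinal.mk_le_aleph0_iff.2 countable_computable
  have h1 : 2 ^ 𝔠 ≤ #S * ℵ₀ := by
    calc 2 ^ 𝔠 = #((ℕ → ℕ) → (ℕ → ℕ)) := mk_functions.symm
      _ ≤ #(S × {φ : List ℕ → List ℕ // Computable φ} × {φ : List ℕ → List ℕ // Computable φ}) :=
        Cardinal.mk_le_of_injective hinj
      _ = #S * (#{φ : List ℕ → List ℕ // Computable φ} *
            #{φ : List ℕ → List ℕ // Computable φ}) := by simp
      _ ≤ #S * (ℵ₀ * ℵ₀) := by gcongr
      _ = #S * ℵ₀ := by rw [Cardinal.aleph0_mul_aleph0]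
  by_contra hlt
  have hlt' : #S < 2 ^ 𝔠 := not_le.1 hlt
  have h2 : ℵ₀ < (2 ^ 𝔠 : Cardinal.{0}) :=
    (Cardinal.aleph0_le_continuum.trans_lt (Cardinal.cantor 𝔠))
  exact absurd h1 (not_le.2 (Cardinal.mul_lt_of_lt h2.le hlt' h2))

/-- Every cofinal set of Weihrauch degrees has cardinality `2 ^ 𝔠`, i.e. the set-cofinality of the
Weihrauch degrees is `2 ^ 𝔠`. The first part spells out the definition of Weihrauch
reducibility. -/
theorem result :
    (∀ f g : Problem, f ≤ g ↔ ∃ φ ψ : List ℕ → List ℕ, IsMachine φ ∧ IsMachine ψ ∧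
      ∀ x, (f.sol x).Nonempty → ∃ y, Maps φ x y ∧ (g.sol y).Nonempty ∧
        ∀ z ∈ g.sol y, ∃ w ∈ f.sol x, Maps ψ (pair x z) w) ∧
    (∀ S : Set Degree, (∀ p : Degree, ∃ q ∈ S, p ≤ q) → #S = 2 ^ 𝔠) ∧
    Order.cof Degree = 2 ^ 𝔠 := by
  have hall : ∀ S : Set Degree, (∀ p : Degree, ∃ q ∈ S, p ≤ q) → #S = 2 ^ 𝔠 := fun S hS =>
    le_antisymm ((Cardinal.mk_set_le S).trans mk_degree_le) (le_mk_of_cofinal S hS)
  refine ⟨fun f g => Iff.rfl, hall, ?_⟩
  obtain ⟨S, hS, hSc⟩ := Order.exists_cof_eq Degree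
  rw [← hSc]
  exact hall S hS

end Pool.Agent.Results.MP_62990a_lc.SetCofinality
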